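import Mathlib

/-!
PROJECT AUT (MP_19fde8_al, S00834), DUAL block, part 1: duals `P →+ ZMod 2` of finite elementary abelian 2-groups.
The hypothesis `h2 : ∀ x : P, x + x = 0` replaces a module structure.
-/

set_option autoImplicit false

namespace QU58

/-- Functionals separate points (module form). -/
theorem sepM {P : Type*} [AddCommGroup P] [Module (ZMod 2) P] {x y : P} (h : ∀ v : P →+ ZMod 2, v x = v y) :
    x = y := by
  have h1 : ∀ f : Module.Dual (ZMod 2) P, f (x - y) = 0 := by
    intro f
    have := h f.toAddMonoidHom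
    rw [map_sub]
    exact sub_eq_zero.mpr this
  exact sub_eq_zero.mp ((Module.forall_dual_apply_eq_zero_iff (ZMod 2) _).mp h1)

/-- Double dual (module form). -/
theorem ddM {P : Type*} [AddCommGroup P] [Module (ZMod 2) P] [Finite P] (h : (P →+ ZMod 2) →+ ZMod 2) :
    ∃ x : P, ∀ v, h v = v x := by
  have : Module.Finite (ZMod 2) P := Module.Finite.of_finite
  let h' : Module.Dual (ZMod 2) P →+ ZMod 2 :=
    { toFun := fun f => h f.toAddMonoidHom
      map_zero' := by
        have : (0 : Module.Dual (ZMod 2) P).toAddMonoidHom = 0 := rfl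
        rw [this, map_zero]
      map_add' := fun f g => by
        have : (f + g).toAddMonoidHom = f.toAddMonoidHom + g.toAddMonoidHom := rfl
        rw [this, map_add] }
  let h'' : Module.Dual (ZMod 2) (Module.Dual (ZMod 2) P) := h'.toZModLinearMap 2
  refine ⟨(Module.evalEquiv (ZMod 2) P).symm h'', fun v => ?_⟩
  have h1 : (v.toZModLinearMap 2 : P →ₗ[ZMod 2] ZMod 2) ((Module.evalEquiv (ZMod 2) P).symm h'') =
      h'' (v.toZModLinearMap 2) := by
    exact Module.apply_evalEquiv_symm_apply (ZMod 2) P (v.toZModLinearMap 2) h''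
  have h2 : h'' (v.toZModLinearMap 2) = h v := by
    show h ((v.toZModLinearMap 2 : P →ₗ[ZMod 2] ZMod 2).toAddMonoidHom) = h v
    congr 1
  rw [← h2, ← h1]
  rfl

section

variable {P Q : Type*} [AddCommGroup P] [AddCommGroup Q]

/-- The `ZMod 2`-module structure from `x + x = 0`. -/
abbrev modOf (h2 : ∀ x : P, x + x = 0) : Module (ZMod 2) P :=
  AddCommGroup.zmodModule (n := 2) fun x => by rw [two_nsmul]; exact h2 x

/-- Functionals separate points. -/
theorem sep (h2 : ∀ x : P, x + x = 0) {x y : P} (h : ∀ v : P →+ ZMod 2, v x = v y) : x = y := by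
  letI := modOf h2
  exact sepM h

/-- Double dual: every additive functional on `P →+ ZMod 2` is an evaluation. -/
theorem dd [Finite P] (h2 : ∀ x : P, x + x = 0) (h : (P →+ ZMod 2) →+ ZMod 2) : ∃ x : P, ∀ v, h v = v x := by
  letI := modOf h2
  exact ddM h

/-- Additive maps between duals are transposes. -/
theorem transpose [Finite P] (h2 : ∀ x : P, x + x = 0) (f : (P →+ ZMod 2) →+ (Q →+ ZMod 2)) :
    ∃ g : Q →+ P, ∀ v, f v = v.comp g := by
  have h : ∀ q : Q, ∃ x : P, ∀ v, f v q = v x := fun q =>
    dd h2 ({ toFun := fun v => f v q, map_zero' := by simp, map_add' := fun v w => by simp } :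
      (P →+ ZMod 2) →+ ZMod 2)
  choose g hg using h
  refine ⟨{ toFun := g, map_zero' := ?_, map_add' := ?_ }, ?_⟩
  · apply sep h2
    intro v
    rw [← hg]
    simp
  · intro a b
    apply sep h2
    intro v
    rw [map_add, ← hg, ← hg, ← hg, map_add]
  · intro v
    ext q
    exact hg q v

theorem transpose_unique (h2 : ∀ x : P, x + x = 0) {g g' : Q →+ P} (h : ∀ v : P →+ ZMod 2, v.comp g = v.comp g') :
    g = g' := by
  ext q
  exact sep h2 fun v => DFunLike.congr_fun (h v) q

/-- Extension of functionals along an injective map. -/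
theorem extend (h2 : ∀ x : P, x + x = 0) (i : Q →+ P) (hi : Function.Injective i) (u : Q →+ ZMod 2) :
    ∃ v : P →+ ZMod 2, ∀ q, v (i q) = u q := by
  letI := modOf h2
  letI : Module (ZMod 2) Q := modOf fun x => hi (by rw [map_add, map_zero]; exact h2 _)
  let i' : Q →ₗ[ZMod 2] P := i.toZModLinearMap 2
  have hi' : LinearMap.ker i' = ⊥ := LinearMap.ker_eq_bot.mpr hi
  obtain ⟨r, hr⟩ := LinearMap.exists_leftInverse_of_injective i' hi'
  refine ⟨u.comp r.toAddMonoidHom, fun q => ?_⟩
  have : r (i' q) = q := by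
    rw [← LinearMap.comp_apply, hr]
    rfl
  show u (r (i q)) = u q
  exact congrArg u this

/-- Functionals vanishing on a kernel factor. -/
theorem factor (pi : P →+ Q) (hpi : Function.Surjective pi) (v : P →+ ZMod 2)
    (h : ∀ x, pi x = 0 → v x = 0) : ∃ u : Q →+ ZMod 2, ∀ x, v x = u (pi x) := by
  refine ⟨pi.liftOfRightInverse (Function.surjInv hpi) (Function.rightInverse_surjInv hpi)
    ⟨v, fun x hx => h x hx⟩, fun x => ?_⟩
  have := AddMonoidHom.liftOfRightInverse_comp_apply pi (Function.surjInv hpi)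
    (Function.rightInverse_surjInv hpi) ⟨v, fun x hx => h x hx⟩ x
  exact this.symm

/-- Separation of a point from a subgroup. -/
theorem sep_subgroup (h2 : ∀ x : P, x + x = 0) (S : AddSubgroup P) (x : P)
    (h : ∀ v : P →+ ZMod 2, (∀ s ∈ S, v s = 0) → v x = 0) : x ∈ S := by
  letI := modOf h2
  have hS : x ∈ AddSubgroup.toZModSubmodule 2 S := by
    by_contra hx
    obtain ⟨f, hf, hf2⟩ := Submodule.exists_le_ker_of_notMem hx
    exact hf (h f.toAddMonoidHom fun s hs => hf2 hs)
  exact hS

theorem dual_add_self (v : P →+ ZMod 2) : v + v = 0 := by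
  ext x
  exact CharTwo.add_self_eq_zero (v x)

theorem finite_dual [Finite P] : Finite (P →+ ZMod 2) :=
  Finite.of_injective (fun f : P →+ ZMod 2 => (f : P → ZMod 2)) DFunLike.coe_injective

end

end QU58
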