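import Mathlib
import Pool.Agent.Helper43.QN.Stage
import Pool.Agent.Helper58.AU.DD

/-!
PROJECT AUT (MP_19fde8_al, S00834), DUAL block, part 2: `LFacts → GFacts` with `B = BBᵐᵒᵖ`, `U = Hom(Q, F_2)`.
-/

set_option autoImplicit false
set_option linter.unusedSectionVars false

namespace QU58

open QN43 MulOpposite

/-- `U = Hom(Q, F_2)`. -/
def UU (Q : Type) [AddCommGroup Q] : Type := Q →+ ZMod 2

section UU

variable {Q : Type} [AddCommGroup Q]

instance : AddCommGroup (UU Q) := inferInstanceAs (AddCommGroup (Q →+ ZMod 2))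

/-- Evaluation. -/
def UU.ev (u : UU Q) (x : Q) : ZMod 2 := (show Q →+ ZMod 2 from u) x

theorem UU.ext {u v : UU Q} (h : ∀ x, u.ev x = v.ev x) : u = v := AddMonoidHom.ext h

@[simp] theorem UU.add_ev (u v : UU Q) (x : Q) : (u + v).ev x = u.ev x + v.ev x := rfl
@[simp] theorem UU.sub_ev (u v : UU Q) (x : Q) : (u - v).ev x = u.ev x - v.ev x := rfl
@[simp] theorem UU.zero_ev (x : Q) : (0 : UU Q).ev x = 0 := rfl
@[simp] theorem UU.ev_add (u : UU Q) (x y : Q) : u.ev (x + y) = u.ev x + u.ev y := map_add (show Q →+ ZMod 2 from u) x y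
@[simp] theorem UU.ev_zero (u : UU Q) : u.ev 0 = 0 := map_zero (show Q →+ ZMod 2 from u)
@[simp] theorem UU.ev_sub (u : UU Q) (x y : Q) : u.ev (x - y) = u.ev x - u.ev y := map_sub (show Q →+ ZMod 2 from u) x y

instance {O : Type} [Group O] [DistribMulAction O Q] : DistribMulAction O (UU Q) where
  smul o u := (show Q →+ ZMod 2 from u).comp (DistribSMul.toAddMonoidHom Q o⁻¹)
  one_smul u := by
    apply UU.ext
    intro x
    show u.ev ((1 : O)⁻¹ • x) = u.ev x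
    simp
  mul_smul o o' u := by
    apply UU.ext
    intro x
    show u.ev ((o * o')⁻¹ • x) = u.ev (o'⁻¹ • o⁻¹ • x)
    rw [mul_inv_rev, mul_smul]
  smul_zero o := rfl
  smul_add o u v := rfl

theorem UU.smul_ev {O : Type} [Group O] [DistribMulAction O Q] (o : O) (u : UU Q) (x : Q) :
    (o • u).ev x = u.ev (o⁻¹ • x) := rfl

instance {BB : Type} [Ring BB] [Module BB Q] : Module BBᵐᵒᵖ (UU Q) where
  smul b u := (show Q →+ ZMod 2 from u).comp (DistribSMul.toAddMonoidHom Q (unop b))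
  one_smul u := by
    apply UU.ext
    intro x
    show u.ev ((1 : BB) • x) = u.ev x
    rw [one_smul]
  mul_smul b b' u := by
    apply UU.ext
    intro x
    show u.ev ((unop b' * unop b) • x) = u.ev (unop b' • unop b • x)
    rw [mul_smul]
  smul_zero b := rfl
  smul_add b u v := rfl
  add_smul b b' u := by
    apply UU.ext
    intro x
    show u.ev ((unop b + unop b') • x) = u.ev (unop b • x) + u.ev (unop b' • x)
    rw [add_smul, UU.ev_add]
  zero_smul u := by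
    apply UU.ext
    intro x
    show u.ev ((0 : BB) • x) = 0
    rw [zero_smul, UU.ev_zero]

theorem UU.bsmul_ev {BB : Type} [Ring BB] [Module BB Q] (b : BBᵐᵒᵖ) (u : UU Q) (x : Q) :
    (b • u).ev x = u.ev (unop b • x) := rfl

end UU

section

variable {J BB E W Q O : Type}
    [AddCommGroup J] [Module (ZMod 2) J] [Module (ZMod 2)ᵐᵒᵖ J] [IsCentralScalar (ZMod 2) J]
    [Ring BB] [AddCommGroup E] [Module (A0 J) E] [AddCommGroup W] [Module (A0 J) W]
    [AddCommGroup Q] [Module BB Q] [Group O] [DistribMulAction O W] [DistribMulAction O Q]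

/-- `κ = op ∘ ι`. -/
def kap (ι : A0 J →+* BB) : A0 J →+* BBᵐᵒᵖ where
  toFun a := op (ι a)
  map_one' := by rw [map_one]; rfl
  map_mul' a b := by rw [mul_comm, map_mul]; rfl
  map_zero' := by rw [map_zero]; rfl
  map_add' a b := by rw [map_add]; rfl

@[simp] theorem kap_apply (ι : A0 J →+* BB) (a : A0 J) : kap ι a = op (ι a) := rfl

/-- `u ↦ u ∘ π`. -/
def jUU (pi : W →+ Q) : UU Q →+ (W →+ ZMod 2) where
  toFun u := (show Q →+ ZMod 2 from u).comp pi
  map_zero' := rfl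
  map_add' u v := rfl

@[simp] theorem jUU_apply (pi : W →+ Q) (u : UU Q) (w : W) : jUU pi u w = u.ev (pi w) := rfl

/-- The pair `(e, b) ↦ (e, op b⁻¹)` on units. -/
def trU : (AddMonoid.End E)ˣ × (BBᵐᵒᵖ)ˣ ≃* (AddMonoid.End E)ˣ × BBˣ where
  toFun n := (n.1, ⟨unop ((n.2⁻¹ : (BBᵐᵒᵖ)ˣ) : BBᵐᵒᵖ), unop (n.2 : BBᵐᵒᵖ),
    by rw [← unop_mul, Units.mul_inv, unop_one], by rw [← unop_mul, Units.inv_mul, unop_one]⟩)
  invFun n := (n.1, ⟨op ((n.2⁻¹ : BBˣ) : BB), op (n.2 : BB),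
    by rw [← op_mul, Units.mul_inv, op_one], by rw [← op_mul, Units.inv_mul, op_one]⟩)
  left_inv n := by
    refine Prod.ext rfl ?_
    apply Units.ext
    rfl
  right_inv n := by
    refine Prod.ext rfl ?_
    apply Units.ext
    rfl
  map_mul' n m := by
    refine Prod.ext rfl ?_
    apply Units.ext
    show unop (((n.2 * m.2)⁻¹ : (BBᵐᵒᵖ)ˣ) : BBᵐᵒᵖ) = unop ((n.2⁻¹ : (BBᵐᵒᵖ)ˣ) : BBᵐᵒᵖ) * unop ((m.2⁻¹ : (BBᵐᵒᵖ)ˣ) : BBᵐᵒᵖ)
    rw [mul_inv_rev, Units.val_mul, unop_mul]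

theorem trU_fst (n : (AddMonoid.End E)ˣ × (BBᵐᵒᵖ)ˣ) : (trU n).1 = n.1 := rfl

theorem trU_snd (n : (AddMonoid.End E)ˣ × (BBᵐᵒᵖ)ˣ) :
    (((trU n).2 : BBˣ) : BB) = unop ((n.2⁻¹ : (BBᵐᵒᵖ)ˣ) : BBᵐᵒᵖ) := rfl

theorem rel0_tr (ι : A0 J →+* BB) (n : (AddMonoid.End E)ˣ × (BBᵐᵒᵖ)ˣ) (a a' : A0 J) :
    Rel0 ι E (trU n) a a' ↔ Rel0 (kap ι) E n a a' := by
  unfold Rel0
  rw [trU_fst]
  refine and_congr Iff.rfl ?_
  rw [trU_snd]
  constructor
  · intro h
    apply unop_injective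
    rw [unop_mul, unop_mul, kap_apply, kap_apply, unop_op, unop_op]
    have h1 : unop ((n.2⁻¹ : (BBᵐᵒᵖ)ˣ) : BBᵐᵒᵖ) * unop (n.2 : BBᵐᵒᵖ) = 1 := by
      rw [← unop_mul, Units.mul_inv, unop_one]
    have h2 : unop (n.2 : BBᵐᵒᵖ) * unop ((n.2⁻¹ : (BBᵐᵒᵖ)ˣ) : BBᵐᵒᵖ) = 1 := by
      rw [← unop_mul, Units.inv_mul, unop_one]
    calc ι a * unop (n.2 : BBᵐᵒᵖ)
        = unop (n.2 : BBᵐᵒᵖ) * (unop ((n.2⁻¹ : (BBᵐᵒᵖ)ˣ) : BBᵐᵒᵖ) * ι a) * unop (n.2 : BBᵐᵒᵖ) := by
          rw [← mul_assoc, h2, one_mul]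
      _ = unop (n.2 : BBᵐᵒᵖ) * ι a' * (unop ((n.2⁻¹ : (BBᵐᵒᵖ)ˣ) : BBᵐᵒᵖ) * unop (n.2 : BBᵐᵒᵖ)) := by
          rw [h]; simp only [mul_assoc]
      _ = unop (n.2 : BBᵐᵒᵖ) * ι a' := by rw [h1, mul_one]
  · intro h
    have h' := congrArg unop h
    rw [unop_mul, unop_mul, kap_apply, kap_apply, unop_op, unop_op] at h'
    have h1 : unop ((n.2⁻¹ : (BBᵐᵒᵖ)ˣ) : BBᵐᵒᵖ) * unop (n.2 : BBᵐᵒᵖ) = 1 := by
      rw [← unop_mul, Units.mul_inv, unop_one]
    have h2 : unop (n.2 : BBᵐᵒᵖ) * unop ((n.2⁻¹ : (BBᵐᵒᵖ)ˣ) : BBᵐᵒᵖ) = 1 := by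
      rw [← unop_mul, Units.inv_mul, unop_one]
    calc unop ((n.2⁻¹ : (BBᵐᵒᵖ)ˣ) : BBᵐᵒᵖ) * ι a
        = unop ((n.2⁻¹ : (BBᵐᵒᵖ)ˣ) : BBᵐᵒᵖ) * (ι a * unop (n.2 : BBᵐᵒᵖ)) *
            unop ((n.2⁻¹ : (BBᵐᵒᵖ)ˣ) : BBᵐᵒᵖ) := by
          rw [← mul_assoc, mul_assoc _ (unop (n.2 : BBᵐᵒᵖ)), h2, mul_one]
      _ = (unop ((n.2⁻¹ : (BBᵐᵒᵖ)ˣ) : BBᵐᵒᵖ) * unop (n.2 : BBᵐᵒᵖ)) * ι a' *
            unop ((n.2⁻¹ : (BBᵐᵒᵖ)ˣ) : BBᵐᵒᵖ) := by
          rw [h']; simp only [mul_assoc]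
      _ = ι a' * unop ((n.2⁻¹ : (BBᵐᵒᵖ)ˣ) : BBᵐᵒᵖ) := by rw [h1, one_mul]

theorem mem_tr (ι : A0 J →+* BB) (n : (AddMonoid.End E)ˣ × (BBᵐᵒᵖ)ˣ) :
    trU n ∈ NN0 ι E ↔ n ∈ NN0 (kap ι) E := by
  show ((∀ a, ∃ a', Rel0 ι E (trU n) a a') ∧ ∀ a', ∃ a, Rel0 ι E (trU n) a a') ↔
    ((∀ a, ∃ a', Rel0 (kap ι) E n a a') ∧ ∀ a', ∃ a, Rel0 (kap ι) E n a a')
  simp only [rel0_tr]

/-- The transport `NN0 (op ∘ ι) ≃* NN0 ι`. -/
def tr (ι : A0 J →+* BB) (E : Type) [AddCommGroup E] [Module (A0 J) E] : NN0 (kap ι) E ≃* NN0 ι E where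
  toFun n := ⟨trU n.1, (mem_tr ι n.1).mpr n.2⟩
  invFun n := ⟨trU.symm n.1, (mem_tr ι _).mp (by rw [MulEquiv.apply_symm_apply]; exact n.2)⟩
  left_inv n := Subtype.ext (trU.symm_apply_apply n.1)
  right_inv n := Subtype.ext (trU.apply_symm_apply n.1)
  map_mul' n m := Subtype.ext (map_mul trU n.1 m.1)

theorem tr_val (ι : A0 J →+* BB) (n : NN0 (kap ι) E) : (tr ι E n).1 = trU n.1 := rfl

theorem two_A0 (J : Type) [AddCommGroup J] [Module (ZMod 2) J] [Module (ZMod 2)ᵐᵒᵖ J] [IsCentralScalar (ZMod 2) J] :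
    (1 : A0 J) + 1 = 0 := by
  have : (1 : A0 J) + 1 = TrivSqZeroExt.inl ((1 : ZMod 2) + 1) := by
    rw [TrivSqZeroExt.inl_add]
    rfl
  rw [this]
  have h : (1 : ZMod 2) + 1 = 0 := by decide
  rw [h]
  exact TrivSqZeroExt.inl_zero _

theorem two_W (J : Type) [AddCommGroup J] [Module (ZMod 2) J] [Module (ZMod 2)ᵐᵒᵖ J] [IsCentralScalar (ZMod 2) J]
    {W : Type} [AddCommGroup W] [Module (A0 J) W] (w : W) : w + w = 0 := by
  have h : ((1 : A0 J) + 1) • w = 0 := by rw [two_A0, zero_smul]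
  rw [add_smul, one_smul] at h
  exact h

theorem two_Q (ι : A0 J →+* BB) (x : Q) : x + x = 0 := by
  have h : ((1 : BB) + 1) • x = 0 := by
    have : (1 : BB) + 1 = ι ((1 : A0 J) + 1) := by rw [map_add, map_one]
    rw [this, two_A0, map_zero, zero_smul]
  rw [add_smul, one_smul] at h
  exact h

variable {ι : A0 J →+* BB} {inc : E →+ W} {pi : W →+ Q} {Φ : J ≃+ (Fin 15 → W)} {p : NN0 ι E →* O}

/-- Fixed points of `Q` vanish (because `O` is perfect). -/
theorem fixQ (h : LFacts ι inc pi Φ p) (x : Q) (hx : ∀ o : O, o • x = x) : x = 0 := by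
  obtain ⟨w, rfl⟩ := h.piSurj x
  have h1 : ∀ (o o' : O), o' • (o • w - w) = o • w - w := by
    intro o o'
    have h2 : pi (o • w - w) = 0 := by rw [map_sub, h.piO, hx, sub_self]
    exact (h.incRange _).mp ((h.piKer _).mp h2) o'
  let f : O →* Multiplicative W :=
    { toFun := fun o => Multiplicative.ofAdd (o • w - w)
      map_one' := by rw [one_smul, sub_self]; rfl
      map_mul' := by
        intro a b
        rw [← ofAdd_add]
        congr 1
        have h3 := h1 b a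
        rw [smul_sub] at h3
        rw [mul_smul]
        calc a • b • w - w = (a • b • w - a • w) + (a • w - w) := by abel
          _ = (b • w - w) + (a • w - w) := by rw [h3]
          _ = (a • w - w) + (b • w - w) := add_comm _ _ }
  have h4 : ∀ o : O, f o = 1 := by
    intro o
    have h5 : o ∈ commutator O := by rw [h.perfO]; trivial
    exact Abelianization.commutator_subset_ker f h5
  have h6 : ∀ o : O, o • w = w := by
    intro o
    have h7 : o • w - w = 0 := congrArg Multiplicative.toAdd (h4 o)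
    exact sub_eq_zero.mp h7
  exact (h.piKer w).mpr ((h.incRange w).mpr h6)

theorem UU.sep (h2 : ∀ x : Q, x + x = 0) {x y : Q} (h : ∀ u : UU Q, u.ev x = u.ev y) : x = y :=
  QU58.sep h2 h

/-- **DUAL block**: the linear facts for `BB` give the facts used by the group part, for `BBᵐᵒᵖ` and
`U = Hom(Q, F_2)`. -/
theorem gfacts (h : LFacts ι inc pi Φ p) : GFacts (kap ι) inc (jUU pi) Φ (p.comp (tr ι E).toMonoidHom) := by
  have h2Q : ∀ x : Q, x + x = 0 := two_Q ι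
  have hfinQ := h.finQ
  have hfinB := h.finB
  have hfinU : Finite (Q →+ ZMod 2) := finite_dual
  have h2U : ∀ u : UU Q, u + u = 0 := fun u => dual_add_self (P := Q) u
  refine
    { finJ := h.finJ
      finB := Finite.of_equiv BB opEquiv
      finE := h.finE
      finW := h.finW
      finU := hfinU
      finO := h.finO
      nontrivJ := h.nontrivJ
      nontrivU := ?_
      perfO := h.perfO
      cop := h.cop
      kapInj := fun a b hab => h.iotaInj (op_injective hab)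
      incInj := h.incInj
      incSmul := h.incSmul
      incRange := h.incRange
      jInj := ?_
      jRange := ?_
      jO := ?_
      jA := ?_
      commW := h.commW
      commU := ?_
      coinv := h.coinv
      fixU := ?_
      coinvU := ?_
      endW := h.endW
      faithW := h.faithW
      faithO := h.faithO
      endU := ?_
      faithU := ?_
      centU := ?_
      pSurj := h.pSurj.comp (tr ι E).surjective
      phiP := ?_
      kerSq := ?_
      perfN := ?_ }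
  · obtain ⟨x, y, hxy⟩ := h.nontrivQ
    by_contra hn
    rw [not_nontrivial_iff_subsingleton] at hn
    apply hxy
    apply UU.sep h2Q
    intro v
    have : v = 0 := Subsingleton.elim v 0
    rw [this]
    rfl
  · intro u v huv
    apply UU.ext
    intro x
    obtain ⟨w, rfl⟩ := h.piSurj x
    exact DFunLike.congr_fun huv w
  · intro φ
    constructor
    · rintro ⟨u, rfl⟩ x
      rw [jUU_apply, (h.piKer _).mpr ⟨x, rfl⟩, UU.ev_zero]
    · intro hφ
      obtain ⟨u, hu⟩ := factor pi h.piSurj φ (by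
        intro w hw
        obtain ⟨x, rfl⟩ := (h.piKer w).mp hw
        exact hφ x)
      refine ⟨(u : UU Q), ?_⟩
      ext w
      exact (hu w).symm
  · intro o u w
    rw [jUU_apply, jUU_apply, UU.smul_ev, h.piO]
  · intro a u w
    rw [jUU_apply, jUU_apply, UU.bsmul_ev, kap_apply, unop_op, h.piA]
  · intro o b u
    apply UU.ext
    intro x
    rw [UU.smul_ev, UU.bsmul_ev, UU.bsmul_ev, UU.smul_ev, h.commQ]
  · intro u hu
    apply UU.ext
    intro x
    obtain ⟨w, rfl⟩ := h.piSurj x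
    have h1 : AddSubgroup.closure {w : W | ∃ (o : O) (u : W), w = o • u - u} ≤ (jUU pi u).ker := by
      rw [AddSubgroup.closure_le]
      rintro _ ⟨o, w', rfl⟩
      show jUU pi u (o • w' - w') = 0
      rw [jUU_apply, map_sub, h.piO, UU.ev_sub]
      have h3 := congrArg (fun v : UU Q => v.ev (o • pi w')) (hu o)
      simp only [UU.smul_ev, inv_smul_smul] at h3
      rw [← h3, sub_self]
    rw [h.coinv] at h1
    exact h1 (AddSubgroup.mem_top w)
  · rw [eq_top_iff]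
    intro u _
    apply sep_subgroup h2U
    intro g hg
    obtain ⟨x, hx⟩ := dd (P := Q) h2Q (show (Q →+ ZMod 2) →+ ZMod 2 from g)
    have hx' : ∀ v : UU Q, g v = v.ev x := hx
    have h1 : x = 0 := by
      apply fixQ h
      intro o
      apply UU.sep h2Q
      intro v
      have h3 := hg (o⁻¹ • v - v) (AddSubgroup.subset_closure ⟨o⁻¹, v, rfl⟩)
      rw [hx', UU.sub_ev, UU.smul_ev, inv_inv, sub_eq_zero] at h3
      exact h3
    rw [hx', h1, UU.ev_zero]
  · intro f hf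
    obtain ⟨g, hg⟩ := transpose (P := Q) (Q := Q) h2Q (show (Q →+ ZMod 2) →+ (Q →+ ZMod 2) from f)
    have hg' : ∀ (u : UU Q) (x : Q), (f u).ev x = u.ev (g x) := fun u x => DFunLike.congr_fun (hg u) x
    obtain ⟨b, hb⟩ := h.endQ g (by
      intro o x
      apply UU.sep h2Q
      intro v
      have h3 : (f (o⁻¹ • v)).ev x = (o⁻¹ • f v).ev x := by rw [hf]
      rw [hg', UU.smul_ev, UU.smul_ev, inv_inv, hg'] at h3
      exact h3.symm)
    refine ⟨op b, fun u => UU.ext fun x => ?_⟩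
    rw [hg', hb, UU.bsmul_ev, unop_op]
  · intro b hb
    have h1 : unop b = 0 := by
      apply h.faithQ
      intro x
      apply UU.sep h2Q
      intro v
      have h3 : (b • v).ev x = (0 : UU Q).ev x := by rw [hb]
      rw [UU.bsmul_ev, UU.zero_ev] at h3
      rw [UU.ev_zero]
      exact h3
    exact unop_injective (by rw [h1, unop_zero])
  · intro o ho u
    have h1 : ∀ y : Q, o⁻¹ • y = y := by
      apply h.centQ
      intro x y
      apply UU.sep h2Q
      intro v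
      have h3 : (o • x⁻¹ • v).ev y = (x⁻¹ • o • v).ev y := by rw [ho]
      rw [UU.smul_ev, UU.smul_ev, UU.smul_ev, UU.smul_ev, inv_inv] at h3
      exact h3.symm
    apply UU.ext
    intro x
    rw [UU.smul_ev, h1]
  · intro n j j' hr
    exact h.phiP (tr ι E n) j j' ((rel0_tr ι n.1 _ _).mpr hr)
  · intro n hn
    have h1 := h.kerSq (tr ι E n) hn
    rw [← map_mul] at h1
    exact (MulEquiv.map_eq_one_iff (tr ι E)).mp h1
  · intro n
    obtain ⟨c, hc, m, a, hm1, hm2, hn⟩ := h.perfN (tr ι E n)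
    refine ⟨(tr ι E).symm c, ?_, (tr ι E).symm m, a, ?_, ?_, ?_⟩
    · have h1 : (commutator (NN0 ι E)).map (tr ι E).symm.toMonoidHom = commutator (NN0 (kap ι) E) := by
        rw [commutator_def, commutator_def, Subgroup.map_commutator]
        rw [Subgroup.map_top_of_surjective _ (tr ι E).symm.surjective]
      rw [← h1]
      exact ⟨c, hc, rfl⟩
    · exact hm1
    · have h4 : ((m.1.2 : BBˣ)⁻¹ : BBˣ) = Units.map ι.toMonoidHom a⁻¹ := by
        rw [map_inv]
        congr 1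
        exact Units.ext hm2
      show op (((m.1.2)⁻¹ : BBˣ) : BB) = op (ι ((a⁻¹ : (A0 J)ˣ) : A0 J))
      rw [h4]
      rfl
    · rw [← map_mul, ← hn, MulEquiv.symm_apply_apply]

end

end QU58
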