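import Pool.Agent.Helper58.AU.Norm7a
import Pool.Agent.Helper58.AU.DD
import Pool.Agent.Helper97.QO.Perf

/-!
PROJECT AUT (MP_19fde8_al, S00834), block A7, part 2: `T_1` has no fixed vectors; the normaliser lemma `norm7`; every
additive map `T_1 → X_1` is a sum of maps `h ∘ γ - h`.
-/

set_option autoImplicit false

namespace QA70

open Helper10.QA QO97

theorem om_fix {v : V} (h : om v = v) : v = 0 := by
  have h1 : om (om v) = om v + v := LinearMap.congr_fun om_sq v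
  rw [h, h, two_vec] at h1
  exact h1

theorem pow_om_fix {ι : Type} [Finite ι] {w : FM.pow ι V} (h : FM.pmap om w = w) : w = 0 := by
  apply FM.pow_ext
  intro i
  have h1 := congrArg (FM.proj i) h
  rw [FM.proj_pmap] at h1
  rw [map_zero]
  exact om_fix h1

/-- the unit `om` on all generators -/
noncomputable def oo : OO := levU omU omU omU omU

theorem oo_val : oo.val = lev om om om om := rfl

theorem oo_f2_fix {m : M2} (h : oo.val.f2 m = m) : m = 0 := by
  obtain ⟨v, y, rfl⟩ := FM.prod_cases m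
  obtain ⟨w, t, rfl⟩ := FM.prod_cases y
  have h1 : (lev om om om om).f2 (M2.mk v w t) = M2.mk v w t := h
  rw [lev_f2] at h1
  have hv : om v = v := congrArg (FM.fst : M2 →ₗ[k] V) h1
  have hw : FM.pmap om w = w := congrArg (FM.fst ∘ₗ FM.snd : M2 →ₗ[k] FM.pow (Fin 3) V) h1
  have ht : om t = t := congrArg (FM.snd ∘ₗ FM.snd : M2 →ₗ[k] V) h1
  rw [om_fix hv, pow_om_fix hw, om_fix ht]
  rfl

theorem oo_f3_fix {m : M3} (h : oo.val.f3 m = m) : m = 0 := by
  obtain ⟨v, x, rfl⟩ := FM.prod_cases m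
  obtain ⟨w, x, rfl⟩ := FM.prod_cases x
  obtain ⟨y, t, rfl⟩ := FM.prod_cases x
  have h1 : (lev om om om om).f3 (M3.mk v w y t) = M3.mk v w y t := h
  rw [lev_f3] at h1
  have hv : om v = v := congrArg (FM.fst : M3 →ₗ[k] V) h1
  have hw : FM.pmap om w = w := congrArg (FM.fst ∘ₗ FM.snd : M3 →ₗ[k] FM.pow (Fin dd × Fin 2) V) h1
  have hy : FM.pmap (lev om om om om).f2 y = y :=
    congrArg (FM.fst ∘ₗ FM.snd ∘ₗ FM.snd : M3 →ₗ[k] FM.pow (Fin dd × Fin 2) M2) h1
  have ht : FM.pmap om t = t := congrArg (FM.snd ∘ₗ FM.snd ∘ₗ FM.snd : M3 →ₗ[k] FM.pow (Fin dd) V) h1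
  have hy0 : y = 0 := by
    apply FM.pow_ext
    intro i
    have h2 := congrArg (FM.proj i) hy
    rw [FM.proj_pmap] at h2
    rw [map_zero]
    exact oo_f2_fix h2
  rw [om_fix hv, pow_om_fix hw, hy0, pow_om_fix ht]
  rfl

/-- `v_0 ↦ v_0 + lam (eV 0)` -/
noncomputable def h0 : FM.K →ₗ[k] M0 := lamM ∘ₗ LinearMap.toSpanSingleton k V (eV 0) ∘ₗ FM.toK

theorem h0_fst (c : FM.K) : FM.fst (h0 c) = 0 := rfl

noncomputable def tt : OO := uni (n0 h0) (n0_sq h0_fst)

theorem eV_ne : eV 0 ≠ 0 := by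
  intro h
  have h1 := congrArg (FM.proj (0 : Fin 4)) h
  rw [eV, FM.proj_single_same, map_zero] at h1
  have h2 : (1 : k) = 0 := congrArg FM.toK h1
  exact one_ne_zero h2

theorem tt_bar (c : FM.K) : (bar tt.val).f0 (FM.mk c 0) = FM.mk c (FM.toK c • eV 0) := by
  show toMb0 ((1 + n0 h0 : MM).f0 (M0.mk c 0 0)) = _
  rw [QHom.add_f0, LinearMap.add_apply, n0_f0]
  show toMb0 (M0.mk c 0 0 + M0.mk 0 (FM.toK c • eV 0) 0) = _
  rw [M0.mk_add, add_zero, zero_add, add_zero]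
  rfl

/-- the units of `MM` have no common fixed vector on `Mb_tot` -/
theorem Mb_fix (m : Mb.tot) (h : ∀ γ : OO, (bar γ.val).tot m = m) : m = 0 := by
  obtain ⟨m0, m1, m2, m3, m4, rfl⟩ := Mb.tmk_cases m
  have h1 := h oo
  rw [QHom.tot_tmk, QRep.tmk_inj] at h1
  obtain ⟨e0, e1, e2', e3, e4⟩ := h1
  have f1 : m1 = 0 := om_fix e1
  have f4 : m4 = 0 := om_fix e4
  have f2 : m2 = 0 := oo_f2_fix e2'
  have f3 : m3 = 0 := oo_f3_fix e3
  obtain ⟨c, v, rfl⟩ := FM.prod_cases m0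
  have g0 : toMb0 ((lev om om om om).f0 (M0.mk c v 0)) = FM.mk c v := e0
  rw [lev_f0] at g0
  have g1 : om v = v := congrArg (FM.snd : Mb0 →ₗ[k] V) g0
  have hv : v = 0 := om_fix g1
  rw [f1, f2, f3, f4, hv] at h ⊢
  have h2 := h tt
  rw [QHom.tot_tmk, QRep.tmk_inj] at h2
  have h3 := h2.1
  rw [tt_bar] at h3
  have h4 : FM.toK c • eV 0 = 0 := congrArg (FM.snd : Mb0 →ₗ[k] V) h3
  have hc : FM.toK c = 0 := by
    rcases smul_eq_zero.mp h4 with h5 | h5
    · exact h5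
    · exact absurd h5 eV_ne
  have hc' : c = 0 := hc
  rw [hc']
  rfl

/-- the units of `MM` have no common fixed vector on `T_1` -/
theorem T1_fix (t : T1) (h : ∀ γ : OO, t1 γ.val t = t) : t = 0 := by
  apply FM.pow_ext
  intro i
  rw [map_zero]
  have h1 : ∀ γ : OO, q1 γ.val (FM.proj i t) = FM.proj i t := by
    intro γ
    have h2 := congrArg (FM.proj i) (h γ)
    exact h2
  obtain ⟨v, x, hx⟩ := Q1.cases (FM.proj i t)
  rw [hx] at h1 ⊢
  have hv : om v = v := congrArg (FM.fst : Q1 →ₗ[k] V) (h1 oo)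
  have hx0 : x = 0 := by
    apply FM.pow_ext
    intro s
    rw [map_zero]
    apply Mb_fix
    intro γ
    have h3 : (bar γ.val).diag x = x := congrArg (FM.snd : Q1 →ₗ[k] Mb.P) (h1 γ)
    have h4 := congrArg (FM.proj s) h3
    rw [QHom.proj_diag] at h4
    exact h4
  rw [om_fix hv, hx0]
  rfl

/-- **Normaliser lemma.** -/
theorem norm7 (e : R1 →+ R1) (he : Function.Injective e) (g : OO)
    (h : ∀ (η : QHom Tp X) (y : R1), e (FM.mk (η.f1 (FM.snd y)) 0) =
      FM.mk (η.f1 (t1 (g⁻¹).val (FM.snd (e y)))) 0) :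
    ∃ u : T1 →+ X1, ∀ x t, e (FM.mk x t) = FM.mk (x + u t) (t1 g.val t) := by
  have hg1 : ∀ t : T1, t1 g.val (t1 (g⁻¹).val t) = t := by
    intro t
    rw [← LinearMap.comp_apply, ← t1_mul, Units.mul_inv, t1_one]
    rfl
  have hg2 : ∀ t : T1, t1 (g⁻¹).val (t1 g.val t) = t := by
    intro t
    rw [← LinearMap.comp_apply, ← t1_mul, Units.inv_mul, t1_one]
    rfl
  -- `e` preserves `X_1`
  have h1 : ∀ x : X1, FM.snd (e (FM.mk x 0)) = 0 := by
    intro x
    have h2 : t1 (g⁻¹).val (FM.snd (e (FM.mk x 0))) = 0 := by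
      apply cogen
      intro η
      have h3 := h η (FM.mk x 0)
      rw [FM.snd_mk, map_zero, FM.mk_zero_zero, map_zero] at h3
      exact (congrArg (FM.fst : R1 →ₗ[k] X1) h3).symm
    have h4 := congrArg (t1 g.val) h2
    rw [hg1, map_zero] at h4
    exact h4
  -- `e` is a scalar, hence the identity, on `X_1`
  obtain ⟨v, hv⟩ := exists_ne_V
  obtain ⟨φ, hφ⟩ := exists_fun hv
  have h2 : ∀ x : X1, e (FM.mk x 0) = FM.mk x 0 := by
    intro x
    obtain ⟨η, hη⟩ := rankOne 0 φ x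
    have h3 := h η (FM.mk 0 (c1 0 v))
    rw [FM.snd_mk, hη] at h3
    have h4 : FM.fst (FM.proj (0 : Fin dd) (c1 0 v)) = v := by
      show FM.fst (FM.proj (0 : Fin dd) (FM.single 0 (FM.mk v 0 : Q1))) = v
      rw [FM.proj_single_same]
      rfl
    rw [h4, hφ, one_smul, hη] at h3
    rw [h3]
    congr 1
    by_cases hc : φ (FM.fst (FM.proj (0 : Fin dd) (t1 (g⁻¹).val (FM.snd (e (FM.mk 0 (c1 0 v))))))) = 0
    · rw [hc, zero_smul] at h3 ⊢
      have h5 : FM.mk x 0 = (0 : R1) := he (by rw [h3, map_zero]; rfl)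
      exact (congrArg (FM.fst : R1 →ₗ[k] X1) h5).symm
    · have h6 : ∀ c : k, c ≠ 0 → c = 1 := by decide
      rw [h6 _ hc, one_smul]
  -- the `T_1`-part
  have h3 : ∀ t : T1, FM.snd (e (FM.mk 0 t)) = t1 g.val t := by
    intro t
    have h4 : t1 (g⁻¹).val (FM.snd (e (FM.mk 0 t))) - t = 0 := by
      apply cogen
      intro η
      have h5 := h η (FM.mk 0 t)
      rw [FM.snd_mk, h2] at h5
      have h6 : η.f1 t = η.f1 (t1 (g⁻¹).val (FM.snd (e (FM.mk 0 t)))) := congrArg (FM.fst : R1 →ₗ[k] X1) h5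
      rw [map_sub, ← h6, sub_self]
    have h7 := congrArg (t1 g.val) (sub_eq_zero.mp h4)
    rw [hg1] at h7
    exact h7
  refine ⟨{ toFun := fun t => FM.fst (e (FM.mk 0 t))
            map_zero' := by rw [FM.mk_zero_zero, map_zero, map_zero]
            map_add' := fun a b => by
              have : (FM.mk 0 (a + b) : R1) = FM.mk 0 a + FM.mk 0 b := by rw [FM.mk_add_mk, add_zero]
              rw [this, map_add, map_add] }, fun x t => ?_⟩
  have h8 : (FM.mk x t : R1) = FM.mk x 0 + FM.mk 0 t := by rw [FM.mk_add_mk, add_zero, zero_add]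
  rw [h8, map_add, h2]
  have h9 : e (FM.mk 0 t) = FM.mk (FM.fst (e (FM.mk 0 t))) (t1 g.val t) := by
    rw [← h3 t]
    exact (FM.mk_eta _).symm
  rw [h9, FM.mk_add_mk, zero_add]
  rfl

/-- functionals on `T_1` are generated by the `φ ∘ γ - φ` -/
theorem span_dual : AddSubgroup.closure {f : T1 →+ ZMod 2 | ∃ (γ : OO) (u : T1 →+ ZMod 2),
    f = u.comp (t1 γ.val).toAddMonoidHom - u} = ⊤ := by
  rw [eq_top_iff]
  intro f _
  have h2 : ∀ x : T1, x + x = 0 := fun x => two_vec x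
  have : Finite (T1 →+ ZMod 2) := QU58.finite_dual
  apply QU58.sep_subgroup (P := T1 →+ ZMod 2) QU58.dual_add_self
  intro v hv
  obtain ⟨t, ht⟩ := QU58.dd h2 v
  have h3 : t = 0 := by
    apply T1_fix
    intro γ
    apply QU58.sep h2
    intro u
    have h4 := hv _ (AddSubgroup.subset_closure ⟨γ, u, rfl⟩)
    rw [ht] at h4
    have h5 : u (t1 γ.val t) - u t = 0 := h4
    exact sub_eq_zero.mp h5
  rw [ht, h3, map_zero]

/-- the map `φ ↦ (t ↦ φ(t) x)` -/
noncomputable def rk (x : X1) : (T1 →+ ZMod 2) →+ (T1 →+ X1) where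
  toFun φ :=
    { toFun := fun t => (φ t : k) • x
      map_zero' := by rw [map_zero, zero_smul]
      map_add' := fun a b => by rw [map_add, add_smul] }
  map_zero' := by
    apply AddMonoidHom.ext
    intro t
    show (0 : k) • x = 0
    rw [zero_smul]
  map_add' φ ψ := by
    apply AddMonoidHom.ext
    intro t
    show ((φ t + ψ t : k)) • x = φ t • x + ψ t • x
    rw [add_smul]

/-- **Every additive map `T_1 → X_1` is a sum of maps `u ∘ γ - u`.** -/
theorem span7 : AddSubgroup.closure {f : T1 →+ X1 | ∃ (γ : OO) (u : T1 →+ X1),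
    f = u.comp (t1 γ.val).toAddMonoidHom - u} = ⊤ := by
  rw [eq_top_iff]
  intro f _
  set S := AddSubgroup.closure {f : T1 →+ X1 | ∃ (γ : OO) (u : T1 →+ X1),
    f = u.comp (t1 γ.val).toAddMonoidHom - u} with hS
  have h1 : ∀ (x : X1) (φ : T1 →+ ZMod 2), rk x φ ∈ S := by
    intro x φ
    have h2 : AddSubgroup.closure {f : T1 →+ ZMod 2 | ∃ (γ : OO) (u : T1 →+ ZMod 2),
        f = u.comp (t1 γ.val).toAddMonoidHom - u} ≤ S.comap (rk x) := by
      rw [AddSubgroup.closure_le]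
      rintro _ ⟨γ, u, rfl⟩
      show rk x (u.comp (t1 γ.val).toAddMonoidHom - u) ∈ S
      rw [map_sub]
      exact AddSubgroup.subset_closure ⟨γ, rk x u, rfl⟩
    rw [span_dual] at h2
    exact h2 (AddSubgroup.mem_top φ)
  have hfin : Module.Finite k X1 := Module.Finite.of_finite
  let B := Module.finBasis k X1
  have h3 : f = ∑ i, rk (B i) ((B.coord i).toAddMonoidHom.comp f) := by
    apply AddMonoidHom.ext
    intro t
    rw [AddMonoidHom.finsetSum_apply]
    exact (B.sum_repr (f t)).symm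
  rw [h3]
  exact AddSubgroup.sum_mem _ fun i _ => h1 _ _

end QA70
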