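import Pool.Agent.Helper70.QA.Free
import Pool.Agent.Helper70.QA.Inj

/-!
PROJECT AUT (MP_19fde8_al, S00834), block A7, part 1: rank one and diagonal homomorphisms `Tp → X`; `T` cogenerates
`Mb`; the intersection of the kernels of all `η : Tp → X` on `T_1` is zero.
-/

set_option autoImplicit false

namespace QA70

open Helper10.QA

theorem rX_zero : rX 0 = 0 := map_zero _

/-- The rank one homomorphism `t ↦ φ(v_i) x`. -/
theorem rankOne (i : Fin dd) (φ : V →ₗ[k] k) (x : X1) :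
    ∃ η : QHom Tp X, ∀ t : T1, η.f1 t = φ (FM.fst (FM.proj i t)) • x := by
  let F2 : T2 →ₗ[k] X1 := ∑ l : Fin 3, (LinearMap.toSpanSingleton k X1 (T.dec l x)) ∘ₗ φ ∘ₗ
    (FM.proj l ∘ₗ FM.fst ∘ₗ FM.snd ∘ₗ FM.fst ∘ₗ FM.proj i)
  have hF2 : ∀ y : T2, F2 y = ∑ l : Fin 3, φ (FM.proj l (FM.fst (FM.snd (FM.fst (FM.proj i y))))) • T.dec l x := by
    intro y
    simp only [F2, LinearMap.sum_apply]
    rfl
  refine ⟨{ f0 := 0
            f1 := (LinearMap.toSpanSingleton k X1 x) ∘ₗ φ ∘ₗ (FM.fst ∘ₗ FM.proj i)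
            f2 := F2
            f3 := 0
            f4 := 0
            hb := ?_
            hr := ?_
            hlam := fun _ => FM.Z_eq _ _
            hal := fun _ => FM.Z_eq _ _
            ha := fun _ _ _ => FM.Z_eq _ _
            hc := fun _ _ _ => FM.Z_eq _ _
            hu := fun _ _ => FM.Z_eq _ _ }, fun t => rfl⟩
  · intro l t
    show F2 (bT l t) = T.dec l (φ (FM.fst (FM.proj i t)) • x)
    rw [hF2, map_smul, Finset.sum_eq_single l]
    · have : FM.proj l (FM.fst (FM.snd (FM.fst (FM.proj i (bT l t))))) = FM.fst (FM.proj i t) :=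
        FM.proj_single_same l _
      rw [this]
    · intro l' _ hl'
      have : FM.proj l' (FM.fst (FM.snd (FM.fst (FM.proj i (bT l t))))) = 0 :=
        FM.proj_single_ne hl' _
      rw [this, map_zero, zero_smul]
    · intro h
      exact absurd (Finset.mem_univ l) h
  · intro s
    show F2 (rT s) = rX 0
    rw [rX_zero, hF2]
    apply Finset.sum_eq_zero
    intro l _
    have : FM.proj l (FM.fst (FM.snd (FM.fst (FM.proj i (rT s))))) = 0 := rfl
    rw [this, map_zero, zero_smul]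

/-- The homomorphism `Tp → X` given by `ψ : Mb → T` on the `i`-th copy. -/
noncomputable def coDiag (i : Fin dd) (ψ : QHom Mb T) : QHom Tp X where
  f0 := 0
  f1 := ψ.diag ∘ₗ FM.snd ∘ₗ FM.proj i
  f2 := ψ.diag ∘ₗ FM.snd ∘ₗ FM.snd ∘ₗ FM.proj i
  f3 := 0
  f4 := 0
  hb := by
    intro l t
    exact ψ.diag_dec l (FM.snd (FM.proj i t))
  hr := by
    intro s
    show ψ.diag 0 = rX 0
    rw [rX_zero, map_zero]
  hlam := fun _ => FM.Z_eq _ _
  hal := fun _ => FM.Z_eq _ _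
  ha := fun _ _ _ => FM.Z_eq _ _
  hc := fun _ _ _ => FM.Z_eq _ _
  hu := fun _ _ => FM.Z_eq _ _

theorem coDiag_f1 (i : Fin dd) (ψ : QHom Mb T) (t : T1) :
    (coDiag i ψ).f1 t = ψ.diag (FM.snd (FM.proj i t)) := rfl

/-- `v ↦ (v, 0)` in the `i`-th copy of `QQ_1`. -/
noncomputable def c1 (i : Fin dd) : V →ₗ[k] T1 := cp1 i ∘ₗ FM.inl
/-- `v ↦ [v, 0, 0]` in the `i`-th copy of `QQ_2`. -/
noncomputable def c2 (i : Fin dd) : V →ₗ[k] T2 := cp2 i ∘ₗ FM.inl ∘ₗ vM2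

theorem cp1_injective (i : Fin dd) : Function.Injective (cp1 i) := fun _ _ h => FM.single_inj h
theorem cp2_injective (i : Fin dd) : Function.Injective (cp2 i) := fun _ _ h => FM.single_inj h
theorem cp4_injective (i : Fin dd) : Function.Injective (cp4 i) := fun _ _ h => FM.single_inj h

theorem c1_injective (i : Fin dd) : Function.Injective (c1 i) := by
  intro v w h
  have h1 := cp1_injective i h
  exact congrArg (FM.fst : Q1 →ₗ[k] V) h1

theorem exists_ne_V : ∃ v : V, v ≠ 0 := by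
  refine ⟨eV 0, fun h => ?_⟩
  have h1 := congrArg (FM.proj (0 : Fin 4)) h
  rw [eV, FM.proj_single_same, map_zero] at h1
  have h2 : (1 : k) = 0 := congrArg FM.toK h1
  exact one_ne_zero h2

theorem exists_ne_T1 : ∃ x : T1, x ≠ 0 := by
  obtain ⟨v, hv⟩ := exists_ne_V
  exact ⟨c1 0 v, fun h => hv (c1_injective 0 (h.trans (map_zero _).symm))⟩

theorem exists_ne_X1 : ∃ x : X1, x ≠ 0 := by
  obtain ⟨t, ht⟩ := exists_ne_T1
  refine ⟨FM.single 0 (T.in1 t), fun h => ht ?_⟩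
  have h1 := FM.single_eq_zero.mp h
  exact congrArg T.pr1 h1

theorem exists_ne_T3 : ∃ x : T3, x ≠ 0 := by
  obtain ⟨t, ht⟩ := exists_ne_T1
  exact ⟨mkT3 (aF 0 0 t), fun h => ht (aF_zero h)⟩

/-- functionals on a finite space separate points -/
theorem exists_fun {A : FM} {a : A} (ha : a ≠ 0) : ∃ φ : A →ₗ[k] k, φ a = 1 := by
  by_contra hcon
  apply ha
  apply (Module.forall_dual_apply_eq_zero_iff k a).mp
  intro φ
  by_contra h
  apply hcon
  refine ⟨φ, ?_⟩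
  have h2 : ∀ c : k, c ≠ 0 → c = 1 := by decide
  exact h2 _ h

theorem tot_zero {A B : QRep} (ψ : QHom A B) {m0 : A.U0} {m1 : A.U1} {m2 : A.U2} {m3 : A.U3} {m4 : A.U4}
    (h : ψ.tot (A.tmk m0 m1 m2 m3 m4) = 0) : ψ.f0 m0 = 0 ∧ ψ.f1 m1 = 0 ∧ ψ.f2 m2 = 0 ∧ ψ.f3 m3 = 0 ∧ ψ.f4 m4 = 0 := by
  rw [QHom.tot_tmk, ← QRep.tmk_zero, QRep.tmk_inj] at h
  exact h

/-- `m ↦ [m,0,0]` in the copy `0` -/
noncomputable def e2 : M2 →ₗ[k] T2 := cp2 0 ∘ₗ (FM.inl : M2 →ₗ[k] Q2)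

theorem e2_bM (l : Fin 3) (x : V) : e2 (bM l x) = bT l (c1 0 x) := by
  show FM.single 0 (FM.mk (bM l x) 0) = FM.pmap (bQ l) (FM.single 0 (FM.mk x 0))
  rw [FM.pmap_single]
  congr 1
  show _ = Q2.mk (bM l x) 0 (Mb.dec l 0)
  rw [map_zero]
  rfl

theorem e2_rM (x : V) : e2 (rM x) = rT (cp4 0 x) := by
  show FM.single 0 (FM.mk (rM x) 0) = FM.pmap rQ (FM.single 0 x)
  rw [FM.pmap_single]
  rfl

theorem e2_injective : Function.Injective e2 := by
  intro x y h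
  have h3 := cp2_injective 0 h
  exact congrArg (FM.fst : Q2 →ₗ[k] M2) h3

/-- the lift of `tst.f3` to `F_3` on the part without `V_3` -/
noncomputable def lf3 : M3 →ₗ[k] F3 :=
  FM.lift (FM.pmap (cp4 0) ∘ₗ FM.snd ∘ₗ FM.snd ∘ₗ FM.snd)
    (FM.lift (FM.pmap (c1 0) ∘ₗ FM.fst ∘ₗ FM.snd) (FM.pmap e2 ∘ₗ FM.fst ∘ₗ FM.snd ∘ₗ FM.snd))

theorem lf3_mk (v : V) (x : FM.pow (Fin dd × Fin 2) V) (y : FM.pow (Fin dd × Fin 2) M2) (z : FM.pow (Fin dd) V) :
    lf3 (M3.mk v x y z) = F3.mk (FM.pmap (cp4 0) z) (FM.pmap (c1 0) x) (FM.pmap e2 y) := by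
  simp only [lf3, FM.lift_apply, LinearMap.comp_apply, M3.mk, FM.fst_mk, FM.snd_mk]

/-- the component at vertex 3 of the test homomorphism -/
noncomputable def f3t (g3 : V →ₗ[k] T3) : M3 →ₗ[k] T3 := g3 ∘ₗ FM.fst + mkT3 ∘ₗ lf3

theorem f3t_mk (g3 : V →ₗ[k] T3) (v : V) (x : FM.pow (Fin dd × Fin 2) V) (y : FM.pow (Fin dd × Fin 2) M2)
    (z : FM.pow (Fin dd) V) : f3t g3 (M3.mk v x y z) =
      g3 v + mkT3 (F3.mk (FM.pmap (cp4 0) z) (FM.pmap (c1 0) x) (FM.pmap e2 y)) := by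
  rw [f3t, LinearMap.add_apply, LinearMap.comp_apply, LinearMap.comp_apply, lf3_mk]
  simp only [M3.mk, FM.fst_mk]

theorem f3t_a (g3 : V →ₗ[k] T3) (i : Fin dd) (j : Fin 2) (x : V) : f3t g3 (aM i j x) = mkT3 (aF i j (c1 0 x)) := by
  rw [aM_apply, f3t_mk, map_zero, map_zero, map_zero, zero_add, FM.pmap_single, aF_apply]

theorem f3t_c (g3 : V →ₗ[k] T3) (i : Fin dd) (j : Fin 2) (x : M2) : f3t g3 (cM i j x) = mkT3 (cF i j (e2 x)) := by
  rw [cM_apply, f3t_mk, map_zero, map_zero, map_zero, zero_add, FM.pmap_single, cF_apply]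

theorem f3t_u (g3 : V →ₗ[k] T3) (i : Fin dd) (x : V) : f3t g3 (uM i x) = mkT3 (uF i (cp4 0 x)) := by
  rw [uM_apply, f3t_mk, map_zero, map_zero, map_zero, zero_add, FM.pmap_single, uF_apply]

/-- the test homomorphisms -/
noncomputable def tst (g0 : FM.K →ₗ[k] T1) (g3 : V →ₗ[k] T3) : QHom Mb T where
  f0 := g0 ∘ₗ FM.fst + c1 0 ∘ₗ FM.snd
  f1 := c1 0
  f2 := e2
  f3 := f3t g3
  f4 := cp4 0
  hb := fun l x => e2_bM l x
  hr := fun x => e2_rM x
  hlam := by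
    intro x
    show g0 0 + c1 0 x = c1 0 x
    rw [map_zero, zero_add]
  hal := fun _ => map_zero _
  ha := by
    intro i j x
    exact f3t_a g3 i j x
  hc := by
    intro i j x
    exact f3t_c g3 i j x
  hu := by
    intro i x
    exact f3t_u g3 i x

theorem tst_f0 (g0 : FM.K →ₗ[k] T1) (g3 : V →ₗ[k] T3) (c : FM.K) (v : V) :
    (tst g0 g3).f0 (FM.mk c v) = g0 c + c1 0 v := rfl

/-- the relation in the copy `0` is trivial -/
theorem mk_copy0 {z : FM.pow (Fin dd) V} {x : FM.pow (Fin dd × Fin 2) V} {y : FM.pow (Fin dd × Fin 2) M2}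
    (h : mkT3 (F3.mk (FM.pmap (cp4 0) z) (FM.pmap (c1 0) x) (FM.pmap e2 y)) = 0) : z = 0 ∧ x = 0 ∧ y = 0 := by
  obtain ⟨m, hm⟩ := FM.mkq_eq_zero.mp h
  have ha : FM.pi (fun ij : Fin dd × Fin 2 => cp1 ij.1 ∘ₗ
      (if ij.2 = 0 then jQ ∘ₗ toMb.tot else FM.inl ∘ₗ M.pr1)) m = FM.pmap (c1 0) x :=
    congrArg (FM.fst ∘ₗ FM.snd : F3 →ₗ[k] _) hm
  have hc : FM.pi (fun ij : Fin dd × Fin 2 => cp2 ij.1 ∘ₗ
        (if ij.2 = 0 then FM.inl ∘ₗ M.pr2 else i0 ∘ₗ M.pr0)) m = FM.pmap e2 y :=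
    congrArg (FM.snd ∘ₗ FM.snd : F3 →ₗ[k] _) hm
  have ha1 := congrArg (FM.proj ((1 : Fin dd), (0 : Fin 2))) ha
  have hc1 := congrArg (FM.proj ((1 : Fin dd), (1 : Fin 2))) hc
  rw [FM.proj_pi, FM.proj_pmap] at ha1 hc1
  have ha2 := congrArg (FM.proj (1 : Fin dd)) ha1
  have hc2 := congrArg (FM.proj (1 : Fin dd)) hc1
  have ne : (1 : Fin dd) ≠ 0 := by decide
  have ha3 : jQ (toMb.tot m) = 0 := by
    have h1 : FM.proj (1 : Fin dd) (c1 0 (FM.proj ((1 : Fin dd), (0 : Fin 2)) x)) = 0 := FM.proj_single_ne ne _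
    rw [h1] at ha2
    rw [← ha2]
    exact (FM.proj_single_same (1 : Fin dd) (jQ (toMb.tot m))).symm
  have hc3 : i0 (M.pr0 m) = 0 := by
    have h1 : FM.proj (1 : Fin dd) (e2 (FM.proj ((1 : Fin dd), (1 : Fin 2)) y)) = 0 := FM.proj_single_ne ne _
    rw [h1] at hc2
    rw [← hc2]
    exact (FM.proj_single_same (1 : Fin dd) (i0 (M.pr0 m))).symm
  have hm0 : m = 0 := tot_eq_zero (jQ_injective (ha3.trans (map_zero _).symm))
    (i0_injective (hc3.trans (map_zero _).symm))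
  rw [hm0, map_zero] at hm
  have h4 : FM.pmap (cp4 0) z = 0 := (congrArg (FM.fst : F3 →ₗ[k] _) hm).symm
  have h1 : FM.pmap (c1 0) x = 0 := (congrArg (FM.fst ∘ₗ FM.snd : F3 →ₗ[k] _) hm).symm
  have h2 : FM.pmap e2 y = 0 := (congrArg (FM.snd ∘ₗ FM.snd : F3 →ₗ[k] _) hm).symm
  refine ⟨?_, ?_, ?_⟩
  · apply FM.pow_ext
    intro i
    have h := congrArg (FM.proj i) h4
    rw [FM.proj_pmap, map_zero] at h
    rw [map_zero]
    exact cp4_injective 0 (h.trans (map_zero _).symm)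
  · apply FM.pow_ext
    intro i
    have h := congrArg (FM.proj i) h1
    rw [FM.proj_pmap, map_zero] at h
    rw [map_zero]
    exact c1_injective 0 (h.trans (map_zero _).symm)
  · apply FM.pow_ext
    intro i
    have h := congrArg (FM.proj i) h2
    rw [FM.proj_pmap, map_zero] at h
    rw [map_zero]
    exact e2_injective (h.trans (map_zero _).symm)

/-- `T` cogenerates `Mb`. -/
theorem cogenMb (m : Mb.tot) (h : ∀ ψ : QHom Mb T, ψ.tot m = 0) : m = 0 := by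
  obtain ⟨m0, m1, m2, m3, m4, rfl⟩ := Mb.tmk_cases m
  have hψ := fun g0 g3 => tot_zero (tst g0 g3) (h (tst g0 g3))
  have e1 : m1 = 0 := by
    have h1 : c1 0 m1 = 0 := (hψ 0 0).2.1
    exact c1_injective 0 (h1.trans (map_zero _).symm)
  have e4 : m4 = 0 := by
    have h1 : cp4 0 m4 = 0 := (hψ 0 0).2.2.2.2
    exact cp4_injective 0 (h1.trans (map_zero _).symm)
  have e2' : m2 = 0 := by
    have h1 : e2 m2 = 0 := (hψ 0 0).2.2.1
    exact e2_injective (h1.trans (map_zero _).symm)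
  have e0 : m0 = 0 := by
    obtain ⟨c, v, rfl⟩ := FM.prod_cases m0
    have h1 : (0 : T1) + c1 0 v = 0 := (hψ 0 0).1
    rw [zero_add] at h1
    have hv : v = 0 := c1_injective 0 (h1.trans (map_zero _).symm)
    obtain ⟨t, ht⟩ := exists_ne_T1
    have h2 : (LinearMap.toSpanSingleton k T1 t ∘ₗ FM.toK) c + c1 0 v = 0 :=
      (hψ (LinearMap.toSpanSingleton k T1 t ∘ₗ FM.toK) 0).1
    rw [hv, map_zero, add_zero] at h2
    have h3 : FM.toK c • t = 0 := h2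
    have hc : FM.toK c = 0 := by
      rcases smul_eq_zero.mp h3 with h4 | h4
      · exact h4
      · exact absurd h4 ht
    have hc' : c = 0 := hc
    rw [hv, hc']
    rfl
  have e3 : m3 = 0 := by
    obtain ⟨v, w, rfl⟩ := FM.prod_cases m3
    obtain ⟨x, w, rfl⟩ := FM.prod_cases w
    obtain ⟨y, z, rfl⟩ := FM.prod_cases w
    have h1 : ∀ g3, f3t g3 (M3.mk v x y z) = 0 := fun g3 => (hψ 0 g3).2.2.2.1
    have h2 := h1 0
    rw [f3t_mk, LinearMap.zero_apply, zero_add] at h2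
    obtain ⟨hz, hx, hy⟩ := mk_copy0 h2
    have hv : v = 0 := by
      by_contra hv
      obtain ⟨φ, hφ⟩ := exists_fun hv
      obtain ⟨t, ht⟩ := exists_ne_T3
      have h3 := h1 (LinearMap.toSpanSingleton k T3 t ∘ₗ φ)
      rw [f3t_mk, h2, add_zero] at h3
      have h4 : φ v • t = 0 := h3
      rw [hφ, one_smul] at h4
      exact ht h4
    rw [hz, hx, hy, hv]
    rfl
  rw [e0, e1, e2', e3, e4]
  rfl

/-- **The homomorphisms `Tp → X` separate `T_1`.** -/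
theorem cogen (t : T1) (h : ∀ η : QHom Tp X, η.f1 t = 0) : t = 0 := by
  apply FM.pow_ext
  intro i
  rw [map_zero]
  apply FM.prod_ext
  · rw [map_zero]
    by_contra hv
    obtain ⟨φ, hφ⟩ := exists_fun hv
    obtain ⟨x, hx⟩ := exists_ne_X1
    obtain ⟨η, hη⟩ := rankOne i φ x
    have h1 := h η
    rw [hη, hφ, one_smul] at h1
    exact hx h1
  · rw [map_zero]
    apply FM.pow_ext
    intro s
    rw [map_zero]
    apply cogenMb
    intro ψ
    have h1 := h (coDiag i ψ)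
    rw [coDiag_f1] at h1
    have h2 := congrArg (FM.proj s) h1
    rw [QHom.proj_diag] at h2
    exact h2

end QA70
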